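import Mathlib

/-!
Lie powers of the natural module of `GL(2, 4)` restricted to the monomial subgroup.
-/

set_option autoImplicit false
set_option linter.unusedSectionVars false

namespace Pool.Agent.Results.MP_a1df92_al.MonomialFour

section defs

variable {F V : Type} [Field F] [AddCommGroup V] [Module F V]

/-- The commutator `[z, v] = z v - v z` of an element of the tensor algebra with a vector. -/
def comm (z : TensorAlgebra F V) (v : V) : TensorAlgebra F V :=
  z * TensorAlgebra.ι F v - TensorAlgebra.ι F v * z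

/-- The left normed bracket `[v, w₁, ..., wᵣ]`. -/
def bracket (v : V) (l : List V) : TensorAlgebra F V := l.foldl comm (TensorAlgebra.ι F v)

variable (F V) in
/-- The Lie power `L^k V`: the span of all brackets of `k` vectors. -/
def lie (k : ℕ) : Submodule F (TensorAlgebra F V) :=
  Submodule.span F {z | ∃ (v : V) (l : List V), l.length + 1 = k ∧ z = bracket v l}

/-- The action of `GL(V)` on the tensor algebra by algebra endomorphisms. -/
def act (g : V ≃ₗ[F] V) : TensorAlgebra F V →ₐ[F] TensorAlgebra F V :=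
  TensorAlgebra.lift F (TensorAlgebra.ι F ∘ₗ g.toLinearMap)

/-- `U` is an `F H`-submodule. -/
def Stable (H : Subgroup (V ≃ₗ[F] V)) (U : Submodule F (TensorAlgebra F V)) : Prop :=
  ∀ g ∈ H, ∀ x ∈ U, act g x ∈ U

/-- `U` is an irreducible `F H`-submodule. -/
def Irr (H : Subgroup (V ≃ₗ[F] V)) (U : Submodule F (TensorAlgebra F V)) : Prop :=
  U ≠ ⊥ ∧ Stable H U ∧ ∀ U' : Submodule F (TensorAlgebra F V), U' ≤ U → Stable H U' →
    U' = ⊥ ∨ U' = U

/-- The condition `(∗ₙ)`. -/
def Star (H : Subgroup (V ≃ₗ[F] V)) (n : ℕ) : Prop :=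
  ∀ k : ℕ, 1 ≤ k → k ≤ n - 1 → ∀ U : Submodule F (TensorAlgebra F V), U ≤ lie F V k →
    Irr ⊤ U → Irr H U

/-- `M` is a direct sum of irreducible `F H`-submodules. -/
def CompletelyReducible (H : Subgroup (V ≃ₗ[F] V)) (M : Submodule F (TensorAlgebra F V)) : Prop :=
  ∃ s : Set (Submodule F (TensorAlgebra F V)), (∀ U ∈ s, Irr H U) ∧ sSupIndep s ∧ sSup s = M

/-- The `F H`-submodules of `M` form a chain. -/
def Uniserial (H : Subgroup (V ≃ₗ[F] V)) (M : Submodule F (TensorAlgebra F V)) : Prop :=
  ∀ U U' : Submodule F (TensorAlgebra F V), U ≤ M → U' ≤ M → Stable H U → Stable H U' →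
    U ≤ U' ∨ U' ≤ U

end defs

/-! ### general facts -/

section general

variable {F V : Type} [Field F] [AddCommGroup V] [Module F V]

/-- commutator with a vector as a bilinear map -/
lemma comm_add_left (z z' : TensorAlgebra F V) (v : V) :
    comm (z + z') v = comm z v + comm z' v := by
  simp only [comm, add_mul, mul_add]; abel

lemma comm_smul_left (t : F) (z : TensorAlgebra F V) (v : V) :
    comm (t • z) v = t • comm z v := by
  simp only [comm, smul_mul_assoc, mul_smul_comm, smul_sub]

lemma comm_add_right (z : TensorAlgebra F V) (v v' : V) :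
    comm z (v + v') = comm z v + comm z v' := by
  simp only [comm, map_add, add_mul, mul_add]; abel

lemma comm_smul_right (t : F) (z : TensorAlgebra F V) (v : V) :
    comm z (t • v) = t • comm z v := by
  simp only [comm, map_smul, smul_mul_assoc, mul_smul_comm, smul_sub]

/-- commutator as a linear map in the first variable -/
def commL (v : V) : TensorAlgebra F V →ₗ[F] TensorAlgebra F V where
  toFun z := comm z v
  map_add' z z' := comm_add_left z z' v
  map_smul' t z := comm_smul_left t z v

lemma act_ι (g : V ≃ₗ[F] V) (v : V) :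
    act g (TensorAlgebra.ι F v) = TensorAlgebra.ι F (g v) := by
  simp [act]

lemma act_comm (g : V ≃ₗ[F] V) (z : TensorAlgebra F V) (v : V) :
    act g (comm z v) = comm (act g z) (g v) := by
  simp only [comm, map_sub, map_mul, act_ι]

lemma bracket_concat (v : V) (l : List V) (w : V) :
    (bracket v (l ++ [w]) : TensorAlgebra F V) = comm (bracket v l) w := by
  simp [bracket]

/-- the next Lie power is spanned by commutators -/
lemma lie_succ_le (k : ℕ) (hk : 1 ≤ k) (s : Set (TensorAlgebra F V)) (t : Set V)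
    (hs : lie F V k ≤ Submodule.span F s) (ht : Submodule.span F t = ⊤) :
    lie F V (k + 1) ≤ Submodule.span F {z | ∃ x ∈ s, ∃ v ∈ t, z = comm x v} := by
  rw [lie, Submodule.span_le]
  rintro _ ⟨v, l, hl, rfl⟩
  have hl' : l ≠ [] := by
    rintro rfl
    simp at hl
    omega
  obtain ⟨l', w, rfl⟩ : ∃ l' w, l = l' ++ [w] := ⟨l.dropLast, l.getLast hl',
    (List.dropLast_append_getLast hl').symm⟩
  rw [bracket_concat]
  have h1 : (bracket v l' : TensorAlgebra F V) ∈ Submodule.span F s := by
    refine hs (Submodule.subset_span ⟨v, l', ?_, rfl⟩)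
    simp at hl
    omega
  have h2 : w ∈ Submodule.span F t := by rw [ht]; trivial
  have h3 : ∀ x ∈ Submodule.span F s, ∀ w ∈ Submodule.span F t,
      comm x w ∈ Submodule.span F {z | ∃ x ∈ s, ∃ v ∈ t, z = comm x v} := by
    intro x hx w hw
    induction hx using Submodule.span_induction with
    | mem x hx =>
      induction hw using Submodule.span_induction with
      | mem w hw => exact Submodule.subset_span ⟨x, hx, w, hw, rfl⟩
      | zero =>
        have : comm x (0 : V) = 0 := by simp [comm]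
        rw [this]; exact Submodule.zero_mem _
      | add w w' _ _ h h' => rw [comm_add_right]; exact Submodule.add_mem _ h h'
      | smul a w _ h => rw [comm_smul_right]; exact Submodule.smul_mem _ _ h
    | zero =>
      have : comm (0 : TensorAlgebra F V) w = 0 := by simp [comm]
      rw [this]; exact Submodule.zero_mem _
    | add x x' _ _ h h' => rw [comm_add_left]; exact Submodule.add_mem _ h h'
    | smul a x _ h => rw [comm_smul_left]; exact Submodule.smul_mem _ _ h
  exact h3 _ h1 _ h2

/-- stability of a span -/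
lemma stable_span (H : Subgroup (V ≃ₗ[F] V)) (s : Set (TensorAlgebra F V))
    (h : ∀ g ∈ H, ∀ x ∈ s, act g x ∈ Submodule.span F s) : Stable H (Submodule.span F s) := by
  intro g hg x hx
  induction hx using Submodule.span_induction with
  | mem x hx => exact h g hg x hx
  | zero => rw [map_zero]; exact Submodule.zero_mem _
  | add x y _ _ hx hy => rw [map_add]; exact Submodule.add_mem _ hx hy
  | smul t x _ hx => rw [map_smul]; exact Submodule.smul_mem _ _ hx

end general

/-! ### the linear group of `F × F` -/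

section two

variable {F : Type} [Field F]

/-- the linear map with `e₀ ↦ (α, β)`, `e₁ ↦ (γ, δ)` -/
def lin (α β γ δ : F) : (F × F) →ₗ[F] (F × F) where
  toFun v := (α * v.1 + γ * v.2, β * v.1 + δ * v.2)
  map_add' v w := by ext <;> simp <;> ring
  map_smul' t v := by ext <;> simp <;> ring

/-- the invertible linear map with `e₀ ↦ (α, β)`, `e₁ ↦ (γ, δ)` -/
def mk (α β γ δ : F) (h : α * δ - β * γ ≠ 0) : (F × F) ≃ₗ[F] (F × F) :=
  LinearEquiv.ofLinearMap (lin α β γ δ)
    (lin (δ * (α * δ - β * γ)⁻¹) (-β * (α * δ - β * γ)⁻¹) (-γ * (α * δ - β * γ)⁻¹)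
      (α * (α * δ - β * γ)⁻¹))
    (by
      have hi := mul_inv_cancel₀ h
      apply LinearMap.ext
      intro v
      simp only [lin, LinearMap.coe_comp, LinearMap.coe_mk, AddHom.coe_mk, Function.comp_apply,
        LinearMap.id_apply]
      ext
      · simp only
        linear_combination v.1 * hi
      · simp only
        linear_combination v.2 * hi)
    (by
      have hi := mul_inv_cancel₀ h
      apply LinearMap.ext
      intro v
      simp only [lin, LinearMap.coe_comp, LinearMap.coe_mk, AddHom.coe_mk, Function.comp_apply,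
        LinearMap.id_apply]
      ext
      · simp only
        linear_combination v.1 * hi
      · simp only
        linear_combination v.2 * hi)

lemma mk_apply (α β γ δ : F) (h : α * δ - β * γ ≠ 0) (v : F × F) :
    mk α β γ δ h v = (α * v.1 + γ * v.2, β * v.1 + δ * v.2) := rfl

lemma eval (g : (F × F) ≃ₗ[F] (F × F)) (v : F × F) : g v = v.1 • g (1, 0) + v.2 • g (0, 1) := by
  rw [← map_smul, ← map_smul, ← map_add]
  congr 1
  ext <;> simp

lemma ext2 {g h : (F × F) ≃ₗ[F] (F × F)} (h0 : g (1, 0) = h (1, 0)) (h1 : g (0, 1) = h (0, 1)) :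
    g = h := by
  apply LinearEquiv.ext
  intro v
  rw [eval g, eval h, h0, h1]

lemma det_ne (g : (F × F) ≃ₗ[F] (F × F)) :
    (g (1, 0)).1 * (g (0, 1)).2 - (g (1, 0)).2 * (g (0, 1)).1 ≠ 0 := by
  intro h
  have h1 : g ((g (0, 1)).2, -(g (1, 0)).2) = 0 := by
    rw [eval]
    ext
    · simp only [Prod.fst_add, Prod.smul_fst, smul_eq_mul, Prod.fst_zero]
      linear_combination h
    · simp only [Prod.snd_add, Prod.smul_snd, smul_eq_mul, Prod.snd_zero]
      ring
  have h2 : g (-(g (0, 1)).1, (g (1, 0)).1) = 0 := by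
    rw [eval]
    ext
    · simp only [Prod.fst_add, Prod.smul_fst, smul_eq_mul, Prod.fst_zero]
      ring
    · simp only [Prod.snd_add, Prod.smul_snd, smul_eq_mul, Prod.snd_zero]
      linear_combination h
  rw [LinearEquiv.map_eq_zero_iff, Prod.mk_eq_zero] at h1 h2
  have h3 : g (1, 0) = 0 := Prod.ext h2.2 (neg_eq_zero.1 h1.2)
  rw [LinearEquiv.map_eq_zero_iff, Prod.mk_eq_zero] at h3
  exact one_ne_zero h3.1

lemma eq_mk (g : (F × F) ≃ₗ[F] (F × F)) :
    g = mk (g (1, 0)).1 (g (1, 0)).2 (g (0, 1)).1 (g (0, 1)).2 (det_ne g) := by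
  apply ext2 <;> rw [mk_apply] <;> simp

variable (F) in
/-- the monomial group -/
def Mon : Subgroup ((F × F) ≃ₗ[F] (F × F)) where
  carrier := {g | ((g (1, 0)).2 = 0 ∧ (g (0, 1)).1 = 0) ∨ ((g (1, 0)).1 = 0 ∧ (g (0, 1)).2 = 0)}
  mul_mem' := by
    rintro g h hg hh
    simp only [Set.mem_ofPred_eq, LinearEquiv.mul_apply] at *
    rw [eval g (h (1, 0)), eval g (h (0, 1))]
    simp only [Prod.snd_add, Prod.fst_add, Prod.smul_snd, Prod.smul_fst, smul_eq_mul]
    rcases hg with ⟨h1, h2⟩ | ⟨h1, h2⟩ <;> rcases hh with ⟨h3, h4⟩ | ⟨h3, h4⟩ <;>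
      simp [h1, h2, h3, h4]
  one_mem' := by left; simp
  inv_mem' := by
    intro g hg
    have key : ∀ v : F × F, g⁻¹ (g v) = v := fun v => g.symm_apply_apply v
    have h0 := key (1, 0)
    have h1 := key (0, 1)
    rw [eval] at h0 h1
    rcases hg with ⟨h2, h3⟩ | ⟨h2, h3⟩
    · left
      rw [h2, zero_smul, add_zero] at h0
      rw [h3, zero_smul, zero_add] at h1
      constructor
      · have := congrArg Prod.snd h0
        simp only [Prod.smul_snd, smul_eq_mul, mul_eq_zero] at this
        rcases this with h | h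
        · rw [h, zero_smul] at h0
          have := congrArg Prod.fst h0
          simp at this
        · exact h
      · have := congrArg Prod.fst h1
        simp only [Prod.smul_fst, smul_eq_mul, mul_eq_zero] at this
        rcases this with h | h
        · rw [h, zero_smul] at h1
          have := congrArg Prod.snd h1
          simp at this
        · exact h
    · right
      rw [h2, zero_smul, zero_add] at h0
      rw [h3, zero_smul, add_zero] at h1
      constructor
      · have := congrArg Prod.fst h1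
        simp only [Prod.smul_fst, smul_eq_mul, mul_eq_zero] at this
        rcases this with h | h
        · rw [h, zero_smul] at h1
          have := congrArg Prod.snd h1
          simp at this
        · exact h
      · have := congrArg Prod.snd h0
        simp only [Prod.smul_snd, smul_eq_mul, mul_eq_zero] at this
        rcases this with h | h
        · rw [h, zero_smul] at h0
          have := congrArg Prod.fst h0
          simp at this
        · exact h

/-- transvections -/
def tau (t : F) : (F × F) ≃ₗ[F] (F × F) := mk 1 t 0 1 (by simp)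

/-- diagonal maps -/
def dg (s t : F) (h : s * t ≠ 0) : (F × F) ≃ₗ[F] (F × F) := mk s 0 0 t (by simpa using h)

variable (F) in
/-- the swap -/
def sw : (F × F) ≃ₗ[F] (F × F) := mk 0 1 1 0 (by simp)

lemma tau_apply (t : F) (v : F × F) : tau t v = (v.1, t * v.1 + v.2) := by
  rw [tau, mk_apply]; simp

lemma dg_apply (s t : F) (h : s * t ≠ 0) (v : F × F) : dg s t h v = (s * v.1, t * v.2) := by
  rw [dg, mk_apply]; simp

lemma sw_apply (v : F × F) : sw F v = (v.2, v.1) := by
  rw [sw, mk_apply]; simp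

lemma dg_mem (s t : F) (h : s * t ≠ 0) : dg s t h ∈ Mon F := by
  left; simp [dg_apply]

lemma sw_mem : sw F ∈ Mon F := by
  right; simp [sw_apply]

/-- a subgroup containing the monomial group and all transvections is everything -/
lemma eq_top_of_tau (K : Subgroup ((F × F) ≃ₗ[F] (F × F))) (hK : Mon F ≤ K)
    (ht : ∀ t, tau t ∈ K) : K = ⊤ := by
  have key : ∀ g : (F × F) ≃ₗ[F] (F × F), (g (1, 0)).1 ≠ 0 → g ∈ K := by
    intro g hg
    have hd := det_ne g
    set α := (g (1, 0)).1 with hα
    set β := (g (1, 0)).2 with hβ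
    set γ := (g (0, 1)).1 with hγ
    set δ := (g (0, 1)).2 with hδ
    have hδ' : δ - β * γ / α ≠ 0 := by
      intro h
      apply hd
      field_simp at h
      linear_combination h
    have : g = tau (β / α) * (sw F * (tau (γ / (δ - β * γ / α)) *
        (dg (δ - β * γ / α) α (mul_ne_zero hδ' hg) * sw F))) := by
      apply ext2
      · simp only [LinearEquiv.mul_apply, sw_apply, dg_apply, tau_apply]
        ext
        · simp [hα]
        · simp only [← hβ]
          field_simp
          ring
      · simp only [LinearEquiv.mul_apply, sw_apply, dg_apply, tau_apply]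
        ext
        · simp only [← hγ, mul_one]
          rw [div_mul_cancel₀ _ hδ']
          ring
        · simp only [← hδ, mul_one]
          rw [div_mul_cancel₀ _ hδ']
          field_simp
          ring
    rw [this]
    exact K.mul_mem (ht _) (K.mul_mem (hK sw_mem) (K.mul_mem (ht _) (K.mul_mem
      (hK (dg_mem _ _ _)) (hK sw_mem))))
  rw [eq_top_iff]
  rintro g -
  by_cases hg : (g (1, 0)).1 = 0
  · have h1 : sw F * g ∈ K := by
      apply key
      rw [LinearEquiv.mul_apply, sw_apply]
      intro h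
      have hd := det_ne g
      apply hd
      rw [hg]
      simp only at h
      rw [h]; ring
    exact (K.mul_mem_cancel_left (hK sw_mem)).1 h1
  · exact key g hg

theorem mon_maximal [CharP F 2] : IsCoatom (Mon F) := by
  constructor
  · intro h
    have : tau (1 : F) ∈ Mon F := by rw [h]; trivial
    rcases this with ⟨h1, h2⟩ | ⟨h1, h2⟩ <;> simp [tau_apply] at h1
  · intro K hK
    obtain ⟨hle, hne⟩ := lt_iff_le_and_ne.1 hK
    obtain ⟨g, hgK, hgM⟩ := SetLike.exists_of_lt hK
    -- one transvection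
    have tA : ∀ g ∈ K, (g (1, 0)).2 ≠ 0 → (g (0, 1)).1 = 0 → ∃ t : F, t ≠ 0 ∧ tau t ∈ K := by
      intro g hg hβ hγ
      have hd := det_ne g
      have hα : (g (1, 0)).1 ≠ 0 := by
        intro h; apply hd; rw [h, hγ]; ring
      have hδ : (g (0, 1)).2 ≠ 0 := by
        intro h; apply hd; rw [h, hγ]; ring
      refine ⟨(g (1, 0)).2 / (g (1, 0)).1, div_ne_zero hβ hα, ?_⟩
      have : tau ((g (1, 0)).2 / (g (1, 0)).1) =
          g * dg (g (1, 0)).1⁻¹ (g (0, 1)).2⁻¹ (mul_ne_zero (inv_ne_zero hα) (inv_ne_zero hδ)) := by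
        set α := (g (1, 0)).1 with hα'
        set β := (g (1, 0)).2 with hβ'
        set γ := (g (0, 1)).1 with hγ'
        set δ := (g (0, 1)).2 with hδ'
        apply ext2
        · rw [LinearEquiv.mul_apply, dg_apply, tau_apply, eval g (α⁻¹ * _, _)]
          ext
          · change 1 = (α⁻¹ * 1) * α + (δ⁻¹ * 0) * γ
            rw [hγ]
            field_simp
            ring
          · change β / α * 1 + 0 = (α⁻¹ * 1) * β + (δ⁻¹ * 0) * δ
            field_simp
        · rw [LinearEquiv.mul_apply, dg_apply, tau_apply, eval g (α⁻¹ * _, _)]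
          ext
          · change 0 = (α⁻¹ * 0) * α + (δ⁻¹ * 1) * γ
            rw [hγ]; ring
          · change β / α * 0 + 1 = (α⁻¹ * 0) * β + (δ⁻¹ * 1) * δ
            field_simp
      rw [this]
      exact K.mul_mem hg (hle (dg_mem _ _ _))
    have tB : ∀ g ∈ K, (g (1, 0)).2 = 0 → (g (0, 1)).1 ≠ 0 → ∃ t : F, t ≠ 0 ∧ tau t ∈ K := by
      intro g hg hβ hγ
      refine tA (sw F * (g * sw F)) (K.mul_mem (hle sw_mem) (K.mul_mem hg (hle sw_mem))) ?_ ?_
      · simp only [LinearEquiv.mul_apply, sw_apply]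
        exact hγ
      · simp only [LinearEquiv.mul_apply, sw_apply]
        exact hβ
    have tC : ∀ g ∈ K, (g (1, 0)).1 = 0 → (g (0, 1)).2 ≠ 0 → ∃ t : F, t ≠ 0 ∧ tau t ∈ K := by
      intro g hg hα hδ
      refine tB (sw F * g) (K.mul_mem (hle sw_mem) hg) ?_ ?_
      · simp only [LinearEquiv.mul_apply, sw_apply]
        exact hα
      · simp only [LinearEquiv.mul_apply, sw_apply]
        exact hδ
    have tD : ∀ g ∈ K, (g (1, 0)).1 ≠ 0 → (g (0, 1)).2 = 0 → ∃ t : F, t ≠ 0 ∧ tau t ∈ K := by
      intro g hg hα hδ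
      refine tA (sw F * g) (K.mul_mem (hle sw_mem) hg) ?_ ?_
      · simp only [LinearEquiv.mul_apply, sw_apply]
        exact hα
      · simp only [LinearEquiv.mul_apply, sw_apply]
        exact hδ
    have tE : ∀ g ∈ K, (g (1, 0)).1 ≠ 0 → (g (1, 0)).2 ≠ 0 → (g (0, 1)).1 ≠ 0 →
        (g (0, 1)).2 ≠ 0 → ∃ t : F, t ≠ 0 ∧ tau t ∈ K := by
      intro g hg hα hβ hγ hδ
      have hd := det_ne g
      set α := (g (1, 0)).1
      set β := (g (1, 0)).2
      set γ := (g (0, 1)).1
      set δ := (g (0, 1)).2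
      have h2 : (2 : F) = 0 := CharTwo.two_eq_zero
      refine tC (g * (dg 1 (α ^ 2 / (β * γ)) (mul_ne_zero one_ne_zero
        (div_ne_zero (pow_ne_zero 2 hα) (mul_ne_zero hβ hγ))) * g))
        (K.mul_mem hg (K.mul_mem (hle (dg_mem _ _ _)) hg)) ?_ ?_
      · simp only [LinearEquiv.mul_apply, dg_apply]
        rw [eval g]
        change (1 * α) * α + (α ^ 2 / (β * γ) * β) * γ = 0
        have h4 : α ^ 2 / (β * γ) * β * γ = α ^ 2 := by field_simp
        linear_combination α ^ 2 * h2 + h4
      · simp only [LinearEquiv.mul_apply, dg_apply]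
        rw [eval g (1 * _, _)]
        change (1 * γ) * β + (α ^ 2 / (β * γ) * δ) * δ ≠ 0
        intro h
        apply hd
        have h3 : (α * δ - β * γ) ^ 2 = 0 := by
          field_simp at h
          linear_combination h - α * δ * β * γ * h2
        exact pow_eq_zero_iff (two_ne_zero) |>.1 h3
    obtain ⟨t, ht0, htK⟩ : ∃ t : F, t ≠ 0 ∧ tau t ∈ K := by
      have hgM' : ¬ (((g (1, 0)).2 = 0 ∧ (g (0, 1)).1 = 0) ∨
        ((g (1, 0)).1 = 0 ∧ (g (0, 1)).2 = 0)) := hgM
      by_cases h1 : (g (0, 1)).1 = 0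
      · exact tA g hgK (fun h => hgM' (Or.inl ⟨h, h1⟩)) h1
      by_cases h2 : (g (1, 0)).2 = 0
      · exact tB g hgK h2 h1
      by_cases h3 : (g (1, 0)).1 = 0
      · exact tC g hgK h3 (fun h => hgM' (Or.inr ⟨h3, h⟩))
      by_cases h4 : (g (0, 1)).2 = 0
      · exact tD g hgK h3 h4
      exact tE g hgK h3 h2 h1 h4
    refine eq_top_of_tau K hle fun t' => ?_
    by_cases ht' : t' = 0
    · have : tau (0 : F) = 1 := by
        apply ext2 <;> simp [tau_apply]
      rw [ht', this]
      exact K.one_mem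
    · have : tau t' = dg 1 (t' / t) (mul_ne_zero one_ne_zero (div_ne_zero ht' ht0)) *
          (tau t * dg 1 (t / t') (mul_ne_zero one_ne_zero (div_ne_zero ht0 ht'))) := by
        apply ext2
        · simp only [LinearEquiv.mul_apply, dg_apply, tau_apply]
          ext
          · simp
          · simp
            field_simp
        · simp only [LinearEquiv.mul_apply, dg_apply, tau_apply]
          ext
          · simp
          · simp
            field_simp
      rw [this]
      exact K.mul_mem (hle (dg_mem _ _ _)) (K.mul_mem htK (hle (dg_mem _ _ _)))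

end two

/-! ### Lie powers of `F × F` in characteristic two -/

section Lie

variable (F : Type) [Field F]

/-- first basis vector -/
def e0 : F × F := (1, 0)

/-- second basis vector -/
def e1 : F × F := (0, 1)

/-- tensor algebra element -/
def ta : TensorAlgebra F (F × F) := TensorAlgebra.ι F (e0 F)

/-- tensor algebra element -/
def tb : TensorAlgebra F (F × F) := TensorAlgebra.ι F (e1 F)

/-- tensor algebra element -/
def tc : TensorAlgebra F (F × F) := comm (ta F) (e1 F)

/-- tensor algebra element -/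
def C0 : TensorAlgebra F (F × F) := comm (tc F) (e0 F)

/-- tensor algebra element -/
def C1 : TensorAlgebra F (F × F) := comm (tc F) (e1 F)

/-- tensor algebra element -/
def R0 : TensorAlgebra F (F × F) := comm (C0 F) (e0 F)

/-- tensor algebra element -/
def R1 : TensorAlgebra F (F × F) := comm (C0 F) (e1 F)

/-- tensor algebra element -/
def R2 : TensorAlgebra F (F × F) := comm (C1 F) (e1 F)

/-- tensor algebra element -/
def P00 : TensorAlgebra F (F × F) := comm (R0 F) (e0 F)

/-- tensor algebra element -/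
def P01 : TensorAlgebra F (F × F) := comm (R0 F) (e1 F)

/-- tensor algebra element -/
def P10 : TensorAlgebra F (F × F) := comm (R1 F) (e0 F)

/-- tensor algebra element -/
def P11 : TensorAlgebra F (F × F) := comm (R1 F) (e1 F)

/-- tensor algebra element -/
def P20 : TensorAlgebra F (F × F) := comm (R2 F) (e0 F)

/-- tensor algebra element -/
def P21 : TensorAlgebra F (F × F) := comm (R2 F) (e1 F)

variable {F}

lemma comm_vec (z : TensorAlgebra F (F × F)) (v : F × F) :
    comm z v = v.1 • comm z (e0 F) + v.2 • comm z (e1 F) := by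
  have : v = v.1 • e0 F + v.2 • e1 F := by ext <;> simp [e0, e1]
  conv_lhs => rw [this]
  rw [comm_add_right, comm_smul_right, comm_smul_right]

lemma ι_vec (v : F × F) : TensorAlgebra.ι F v = v.1 • ta F + v.2 • tb F := by
  have : v = v.1 • e0 F + v.2 • e1 F := by ext <;> simp [e0, e1]
  conv_lhs => rw [this]
  rw [map_add, map_smul, map_smul]
  rfl

lemma comm_ta_e0 : comm (ta F) (e0 F) = 0 := by simp [comm, ta]

lemma comm_tb_e1 : comm (tb F) (e1 F) = 0 := by simp [comm, tb]

lemma comm_tb_e0 : comm (tb F) (e0 F) = - tc F := by simp [comm, ta, tb, tc]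

lemma comm_C1_e0 : comm (C1 F) (e0 F) = R1 F := by
  simp only [comm, ta, tc, C0, C1, R1]
  noncomm_ring

section char2

variable [CharP F 2]

lemma neg_eq (z : TensorAlgebra F (F × F)) : -z = z := by
  rw [← neg_one_smul F z, CharTwo.neg_eq, one_smul]

lemma add_self (z : TensorAlgebra F (F × F)) : z + z = 0 := by
  rw [← two_smul F z, CharTwo.two_eq_zero, zero_smul]

lemma comm_tb_e0' : comm (tb F) (e0 F) = tc F := by rw [comm_tb_e0, neg_eq]

lemma act_tc (g : (F × F) ≃ₗ[F] (F × F)) :
    act g (tc F) = ((g (e0 F)).1 * (g (e1 F)).2 - (g (e0 F)).2 * (g (e1 F)).1) • tc F := by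
  rw [tc, act_comm, ta, act_ι, comm_vec, ι_vec]
  simp only [comm_add_left, comm_smul_left, comm_ta_e0, comm_tb_e1, comm_tb_e0, smul_zero,
    zero_add, add_zero]
  change _ • _ • (- tc F) + _ • _ • tc F = _ • tc F
  module

lemma quad (v : F × F) : comm (comm (tc F) v) v = v.1 ^ 2 • R0 F + v.2 ^ 2 • R2 F := by
  rw [comm_vec (tc F) v, comm_vec _ v]
  simp only [comm_add_left, comm_smul_left]
  change v.1 • (v.1 • R0 F + v.2 • comm (C1 F) (e0 F)) + v.2 • (v.1 • R1 F + v.2 • R2 F) = _
  rw [comm_C1_e0]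
  have h := add_self ((v.1 * v.2) • R1 F)
  linear_combination (norm := module) h

/-- action of a general element on the square part -/
lemma act_R0 (g : (F × F) ≃ₗ[F] (F × F)) :
    act g (R0 F) = ((g (e0 F)).1 * (g (e1 F)).2 - (g (e0 F)).2 * (g (e1 F)).1) •
      ((g (e0 F)).1 ^ 2 • R0 F + (g (e0 F)).2 ^ 2 • R2 F) := by
  rw [← quad, R0, C0, act_comm, act_comm, act_tc, comm_smul_left, comm_smul_left]

lemma act_R2 (g : (F × F) ≃ₗ[F] (F × F)) :
    act g (R2 F) = ((g (e0 F)).1 * (g (e1 F)).2 - (g (e0 F)).2 * (g (e1 F)).1) •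
      ((g (e1 F)).1 ^ 2 • R0 F + (g (e1 F)).2 ^ 2 • R2 F) := by
  rw [← quad, R2, C1, act_comm, act_comm, act_tc, comm_smul_left, comm_smul_left]

variable (F) in
/-- the set spanning the simple submodule of the fourth Lie power -/
def setS : Set (TensorAlgebra F (F × F)) := {R0 F, R2 F}

variable (F) in
/-- the set spanning the simple submodule of the fifth Lie power -/
def setU : Set (TensorAlgebra F (F × F)) := {P00 F, P01 F, P20 F, P21 F}

variable (F) in
/-- the set spanning a monomial submodule -/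
def setA : Set (TensorAlgebra F (F × F)) := {P00 F, P21 F}

variable (F) in
/-- the set spanning a monomial submodule -/
def setB : Set (TensorAlgebra F (F × F)) := {P10 F, P11 F}

lemma stable_S : Stable ⊤ (Submodule.span F (setS F)) := by
  apply stable_span
  have h0 : R0 F ∈ Submodule.span F (setS F) := Submodule.subset_span (Or.inl rfl)
  have h2 : R2 F ∈ Submodule.span F (setS F) := Submodule.subset_span (Or.inr rfl)
  rintro g - x (rfl | rfl)
  · rw [act_R0]
    exact Submodule.smul_mem _ _ (Submodule.add_mem _ (Submodule.smul_mem _ _ h0)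
      (Submodule.smul_mem _ _ h2))
  · rw [act_R2]
    exact Submodule.smul_mem _ _ (Submodule.add_mem _ (Submodule.smul_mem _ _ h0)
      (Submodule.smul_mem _ _ h2))

/-- commutators of the square part lie in `U` -/
lemma comm_mem_U (x y : F) (v : F × F) :
    comm (x • R0 F + y • R2 F) v ∈ Submodule.span F (setU F) := by
  have h0 : P00 F ∈ Submodule.span F (setU F) := Submodule.subset_span (by simp [setU])
  have h1 : P01 F ∈ Submodule.span F (setU F) := Submodule.subset_span (by simp [setU])
  have h2 : P20 F ∈ Submodule.span F (setU F) := Submodule.subset_span (by simp [setU])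
  have h3 : P21 F ∈ Submodule.span F (setU F) := Submodule.subset_span (by simp [setU])
  rw [comm_vec, comm_add_left, comm_smul_left, comm_smul_left, comm_add_left, comm_smul_left,
    comm_smul_left]
  exact Submodule.add_mem _ (Submodule.smul_mem _ _ (Submodule.add_mem _
    (Submodule.smul_mem _ _ h0) (Submodule.smul_mem _ _ h2)))
    (Submodule.smul_mem _ _ (Submodule.add_mem _
    (Submodule.smul_mem _ _ h1) (Submodule.smul_mem _ _ h3)))

lemma stable_U : Stable ⊤ (Submodule.span F (setU F)) := by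
  apply stable_span
  rintro g - x (rfl | rfl | rfl | rfl)
  · rw [P00, act_comm, act_R0, comm_smul_left]
    exact Submodule.smul_mem _ _ (comm_mem_U _ _ _)
  · rw [P01, act_comm, act_R0, comm_smul_left]
    exact Submodule.smul_mem _ _ (comm_mem_U _ _ _)
  · rw [P20, act_comm, act_R2, comm_smul_left]
    exact Submodule.smul_mem _ _ (comm_mem_U _ _ _)
  · rw [P21, act_comm, act_R2, comm_smul_left]
    exact Submodule.smul_mem _ _ (comm_mem_U _ _ _)

lemma tau_e0 (t : F) : tau t (e0 F) = e0 F + t • e1 F := by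
  rw [tau_apply]; ext <;> simp [e0, e1]

lemma tau_e1 (t : F) : tau t (e1 F) = e1 F := by
  rw [tau_apply]; ext <;> simp [e1]

lemma sw_e0 : sw F (e0 F) = e1 F := by
  rw [sw_apply]; ext <;> simp [e0, e1]

lemma sw_e1 : sw F (e1 F) = e0 F := by
  rw [sw_apply]; ext <;> simp [e0, e1]

lemma dg_e0 (s t : F) (h : s * t ≠ 0) : dg s t h (e0 F) = s • e0 F := by
  rw [dg_apply]; ext <;> simp [e0]

lemma dg_e1 (s t : F) (h : s * t ≠ 0) : dg s t h (e1 F) = t • e1 F := by
  rw [dg_apply]; ext <;> simp [e1]

/-! action of the transvections -/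

lemma tau_ta (t : F) : act (tau t) (ta F) = ta F + t • tb F := by
  rw [ta, act_ι, tau_e0, map_add, map_smul]; rfl

lemma tau_tb (t : F) : act (tau t) (tb F) = tb F := by
  rw [tb, act_ι, tau_e1]

lemma tau_tc (t : F) : act (tau t) (tc F) = tc F := by
  rw [act_tc, tau_e0, tau_e1]; simp [e0, e1]

lemma tau_R0 (t : F) : act (tau t) (R0 F) = R0 F + t ^ 2 • R2 F := by
  rw [act_R0, tau_e0, tau_e1]; simp [e0, e1]

lemma tau_R1 (t : F) : act (tau t) (R1 F) = R1 F + t • R2 F := by
  rw [R1, C0, act_comm, act_comm, tau_tc, tau_e0, tau_e1, comm_add_right, comm_add_left,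
    comm_smul_right, comm_smul_left]
  rfl

lemma tau_R2 (t : F) : act (tau t) (R2 F) = R2 F := by
  rw [R2, C1, act_comm, act_comm, tau_tc, tau_e1]

lemma tau_P00 (t : F) : act (tau t) (P00 F) = P00 F + t • P01 F + t ^ 2 • P20 F +
    t ^ 3 • P21 F := by
  rw [P00, act_comm, tau_R0, tau_e0, comm_add_right, comm_add_left, comm_smul_right,
    comm_add_left, comm_smul_left, comm_smul_left]
  change P00 F + t ^ 2 • P20 F + t • (P01 F + t ^ 2 • P21 F) =
    P00 F + t • P01 F + t ^ 2 • P20 F + t ^ 3 • P21 F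
  module

lemma tau_P01 (t : F) : act (tau t) (P01 F) = P01 F + t ^ 2 • P21 F := by
  rw [P01, act_comm, tau_R0, tau_e1, comm_add_left, comm_smul_left]
  rfl

lemma tau_P20 (t : F) : act (tau t) (P20 F) = P20 F + t • P21 F := by
  rw [P20, act_comm, tau_R2, tau_e0, comm_add_right, comm_smul_right]
  rfl

lemma tau_P21 (t : F) : act (tau t) (P21 F) = P21 F := by
  rw [P21, act_comm, tau_R2, tau_e1]

/-! action of the swap -/

lemma sw_ta : act (sw F) (ta F) = tb F := by rw [ta, act_ι, sw_e0]; rfl

lemma sw_tb : act (sw F) (tb F) = ta F := by rw [tb, act_ι, sw_e1]; rfl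

lemma sw_tc : act (sw F) (tc F) = tc F := by
  rw [tc, act_comm, sw_ta, sw_e1, comm_tb_e0']; rfl

lemma sw_C0 : act (sw F) (C0 F) = C1 F := by rw [C0, act_comm, sw_tc, sw_e0]; rfl

lemma sw_C1 : act (sw F) (C1 F) = C0 F := by rw [C1, act_comm, sw_tc, sw_e1]; rfl

lemma sw_R0 : act (sw F) (R0 F) = R2 F := by rw [R0, act_comm, sw_C0, sw_e0]; rfl

lemma sw_R1 : act (sw F) (R1 F) = R1 F := by rw [R1, act_comm, sw_C0, sw_e1, comm_C1_e0]; rfl

lemma sw_R2 : act (sw F) (R2 F) = R0 F := by rw [R2, act_comm, sw_C1, sw_e1]; rfl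

lemma sw_P00 : act (sw F) (P00 F) = P21 F := by rw [P00, act_comm, sw_R0, sw_e0]; rfl

lemma sw_P01 : act (sw F) (P01 F) = P20 F := by rw [P01, act_comm, sw_R0, sw_e1]; rfl

lemma sw_P10 : act (sw F) (P10 F) = P11 F := by rw [P10, act_comm, sw_R1, sw_e0]; rfl

lemma sw_P11 : act (sw F) (P11 F) = P10 F := by rw [P11, act_comm, sw_R1, sw_e1]; rfl

lemma sw_P20 : act (sw F) (P20 F) = P01 F := by rw [P20, act_comm, sw_R2, sw_e0]; rfl

lemma sw_P21 : act (sw F) (P21 F) = P00 F := by rw [P21, act_comm, sw_R2, sw_e1]; rfl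

/-! action of the diagonal maps -/

section dg

variable (s t : F) (h : s * t ≠ 0)

lemma dg_ta : act (dg s t h) (ta F) = s • ta F := by rw [ta, act_ι, dg_e0, map_smul]

lemma dg_tb : act (dg s t h) (tb F) = t • tb F := by rw [tb, act_ι, dg_e1, map_smul]

lemma dg_tc : act (dg s t h) (tc F) = (s * t) • tc F := by
  rw [tc, act_comm, dg_ta, dg_e1, comm_smul_left, comm_smul_right]
  module

lemma dg_C0 : act (dg s t h) (C0 F) = (s ^ 2 * t) • C0 F := by
  rw [C0, act_comm, dg_tc, dg_e0, comm_smul_left, comm_smul_right]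
  module

lemma dg_C1 : act (dg s t h) (C1 F) = (s * t ^ 2) • C1 F := by
  rw [C1, act_comm, dg_tc, dg_e1, comm_smul_left, comm_smul_right]
  module

lemma dg_R0 : act (dg s t h) (R0 F) = (s ^ 3 * t) • R0 F := by
  rw [R0, act_comm, dg_C0, dg_e0, comm_smul_left, comm_smul_right]
  module

lemma dg_R1 : act (dg s t h) (R1 F) = (s ^ 2 * t ^ 2) • R1 F := by
  rw [R1, act_comm, dg_C0, dg_e1, comm_smul_left, comm_smul_right]
  module

lemma dg_R2 : act (dg s t h) (R2 F) = (s * t ^ 3) • R2 F := by
  rw [R2, act_comm, dg_C1, dg_e1, comm_smul_left, comm_smul_right]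
  module

lemma dg_P00 : act (dg s t h) (P00 F) = (s ^ 4 * t) • P00 F := by
  rw [P00, act_comm, dg_R0, dg_e0, comm_smul_left, comm_smul_right]
  module

lemma dg_P01 : act (dg s t h) (P01 F) = (s ^ 3 * t ^ 2) • P01 F := by
  rw [P01, act_comm, dg_R0, dg_e1, comm_smul_left, comm_smul_right]
  module

lemma dg_P10 : act (dg s t h) (P10 F) = (s ^ 3 * t ^ 2) • P10 F := by
  rw [P10, act_comm, dg_R1, dg_e0, comm_smul_left, comm_smul_right]
  module

lemma dg_P11 : act (dg s t h) (P11 F) = (s ^ 2 * t ^ 3) • P11 F := by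
  rw [P11, act_comm, dg_R1, dg_e1, comm_smul_left, comm_smul_right]
  module

lemma dg_P20 : act (dg s t h) (P20 F) = (s ^ 2 * t ^ 3) • P20 F := by
  rw [P20, act_comm, dg_R2, dg_e0, comm_smul_left, comm_smul_right]
  module

lemma dg_P21 : act (dg s t h) (P21 F) = (s * t ^ 4) • P21 F := by
  rw [P21, act_comm, dg_R2, dg_e1, comm_smul_left, comm_smul_right]
  module

end dg

lemma act_mul (g h : (F × F) ≃ₗ[F] (F × F)) (x : TensorAlgebra F (F × F)) :
    act (g * h) x = act g (act h x) := by
  have : act (g * h) = (act g).comp (act h) := by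
    apply TensorAlgebra.hom_ext
    apply LinearMap.ext
    intro v
    simp [act_ι]
  rw [this]; rfl

/-- elements of the monomial group -/
lemma mon_cases {g : (F × F) ≃ₗ[F] (F × F)} (hg : g ∈ Mon F) :
    ∃ (s t : F) (h : s * t ≠ 0), g = dg s t h ∨ g = sw F * dg s t h := by
  have hd := det_ne g
  rcases hg with ⟨h1, h2⟩ | ⟨h1, h2⟩
  · rw [h1, h2, zero_mul, sub_zero] at hd
    refine ⟨_, _, hd, Or.inl ?_⟩
    apply ext2
    · rw [dg_apply]; ext <;> simp [h1]
    · rw [dg_apply]; ext <;> simp [h2]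
  · rw [h1, h2, zero_mul, zero_sub, neg_ne_zero] at hd
    refine ⟨_, _, hd, Or.inr ?_⟩
    apply ext2
    · rw [LinearEquiv.mul_apply, dg_apply, sw_apply]; ext <;> simp [h1]
    · rw [LinearEquiv.mul_apply, dg_apply, sw_apply]; ext <;> simp [h2]

/-- stability under the monomial group can be tested on generators -/
lemma stable_mon (U : Submodule F (TensorAlgebra F (F × F)))
    (h1 : ∀ (s t : F) (h : s * t ≠ 0), ∀ x ∈ U, act (dg s t h) x ∈ U)
    (h2 : ∀ x ∈ U, act (sw F) x ∈ U) : Stable (Mon F) U := by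
  intro g hg x hx
  obtain ⟨s, t, h, rfl | rfl⟩ := mon_cases hg
  · exact h1 s t h x hx
  · rw [act_mul]
    exact h2 _ (h1 s t h x hx)

/-! ### spanning sets -/

lemma span_e : Submodule.span F ({e0 F, e1 F} : Set (F × F)) = ⊤ := by
  rw [eq_top_iff]
  rintro v -
  have : v = v.1 • e0 F + v.2 • e1 F := by ext <;> simp [e0, e1]
  rw [this]
  exact Submodule.add_mem _ (Submodule.smul_mem _ _ (Submodule.subset_span (Or.inl rfl)))
    (Submodule.smul_mem _ _ (Submodule.subset_span (Or.inr rfl)))

lemma lie_one_le : lie F (F × F) 1 ≤ Submodule.span F {ta F, tb F} := by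
  rw [lie, Submodule.span_le]
  rintro _ ⟨v, l, hl, rfl⟩
  have : l = [] := by
    rw [← List.length_eq_zero_iff]; omega
  subst this
  change TensorAlgebra.ι F v ∈ _
  rw [ι_vec]
  exact Submodule.add_mem _ (Submodule.smul_mem _ _ (Submodule.subset_span (Or.inl rfl)))
    (Submodule.smul_mem _ _ (Submodule.subset_span (Or.inr rfl)))

lemma lie_two_le : lie F (F × F) 2 ≤ Submodule.span F {tc F} := by
  refine (lie_succ_le 1 le_rfl _ _ lie_one_le span_e).trans ?_
  have hc : tc F ∈ Submodule.span F {tc F} := Submodule.subset_span rfl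
  rw [Submodule.span_le]
  rintro _ ⟨x, rfl | rfl, v, rfl | rfl, rfl⟩
  · rw [comm_ta_e0]; exact Submodule.zero_mem _
  · exact hc
  · rw [comm_tb_e0']; exact hc
  · rw [comm_tb_e1]; exact Submodule.zero_mem _

lemma lie_three_le : lie F (F × F) 3 ≤ Submodule.span F {C0 F, C1 F} := by
  refine (lie_succ_le 2 (by norm_num) _ _ lie_two_le span_e).trans ?_
  rw [Submodule.span_le]
  rintro _ ⟨x, rfl, v, rfl | rfl, rfl⟩
  · exact Submodule.subset_span (Or.inl rfl)
  · exact Submodule.subset_span (Or.inr rfl)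

lemma lie_four_le : lie F (F × F) 4 ≤ Submodule.span F {R0 F, R1 F, R2 F} := by
  refine (lie_succ_le 3 (by norm_num) _ _ lie_three_le span_e).trans ?_
  rw [Submodule.span_le]
  rintro _ ⟨x, rfl | rfl, v, rfl | rfl, rfl⟩
  · exact Submodule.subset_span (Or.inl rfl)
  · exact Submodule.subset_span (Or.inr (Or.inl rfl))
  · rw [comm_C1_e0]; exact Submodule.subset_span (Or.inr (Or.inl rfl))
  · exact Submodule.subset_span (Or.inr (Or.inr rfl))

lemma lie_five_le : lie F (F × F) 5 ≤
    Submodule.span F {P00 F, P01 F, P10 F, P11 F, P20 F, P21 F} := by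
  refine (lie_succ_le 4 (by norm_num) _ _ lie_four_le span_e).trans ?_
  rw [Submodule.span_le]
  rintro _ ⟨x, rfl | rfl | rfl, v, rfl | rfl, rfl⟩ <;> apply Submodule.subset_span
  · exact Or.inl rfl
  · exact Or.inr (Or.inl rfl)
  · exact Or.inr (Or.inr (Or.inl rfl))
  · exact Or.inr (Or.inr (Or.inr (Or.inl rfl)))
  · exact Or.inr (Or.inr (Or.inr (Or.inr (Or.inl rfl))))
  · exact Or.inr (Or.inr (Or.inr (Or.inr (Or.inr rfl))))

lemma P00_mem : P00 F ∈ lie F (F × F) 5 :=
  Submodule.subset_span ⟨e0 F, [e1 F, e0 F, e0 F, e0 F], rfl, rfl⟩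

lemma P01_mem : P01 F ∈ lie F (F × F) 5 :=
  Submodule.subset_span ⟨e0 F, [e1 F, e0 F, e0 F, e1 F], rfl, rfl⟩

lemma P10_mem : P10 F ∈ lie F (F × F) 5 :=
  Submodule.subset_span ⟨e0 F, [e1 F, e0 F, e1 F, e0 F], rfl, rfl⟩

lemma P11_mem : P11 F ∈ lie F (F × F) 5 :=
  Submodule.subset_span ⟨e0 F, [e1 F, e0 F, e1 F, e1 F], rfl, rfl⟩

lemma P20_mem : P20 F ∈ lie F (F × F) 5 :=
  Submodule.subset_span ⟨e0 F, [e1 F, e1 F, e1 F, e0 F], rfl, rfl⟩

lemma P21_mem : P21 F ∈ lie F (F × F) 5 :=
  Submodule.subset_span ⟨e0 F, [e1 F, e1 F, e1 F, e1 F], rfl, rfl⟩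

/-! ### non-vanishing -/

/-- a representation of the tensor algebra by two matrices -/
def rep (A B : Matrix (Fin 2) (Fin 2) F) : TensorAlgebra F (F × F) →ₐ[F] Matrix (Fin 2) (Fin 2) F :=
  TensorAlgebra.lift F
    { toFun := fun v => v.1 • A + v.2 • B
      map_add' := fun v w => by simp only [Prod.fst_add, Prod.snd_add, add_smul]; abel
      map_smul' := fun t v => by
        simp only [Prod.smul_fst, Prod.smul_snd, smul_eq_mul, mul_smul, smul_add,
          RingHom.id_apply] }

lemma rep_ta (A B : Matrix (Fin 2) (Fin 2) F) : rep A B (ta F) = A := by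
  simp [rep, ta, e0]

lemma rep_comm0 (A B : Matrix (Fin 2) (Fin 2) F) (z : TensorAlgebra F (F × F)) :
    rep A B (comm z (e0 F)) = rep A B z * A - A * rep A B z := by
  simp [rep, comm, e0]

lemma rep_comm1 (A B : Matrix (Fin 2) (Fin 2) F) (z : TensorAlgebra F (F × F)) :
    rep A B (comm z (e1 F)) = rep A B z * B - B * rep A B z := by
  simp [rep, comm, e1]

lemma P00_ne : P00 F ≠ P21 F := by
  intro h
  have h1 := congrArg (rep !![1, 0; 0, 0] !![0, 1; 0, 0]) h
  simp only [P00, P21, R0, R2, C0, C1, tc, rep_comm0, rep_comm1, rep_ta] at h1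
  have h2 := congrFun (congrFun h1 0) 1
  simp at h2

lemma P01_ne : P01 F ≠ 0 := by
  intro h
  have h1 := congrArg (rep !![1, 0; 0, 0] !![1, 1; 0, 0]) h
  simp only [P01, R0, C0, tc, rep_comm0, rep_comm1, rep_ta] at h1
  have h2 := congrFun (congrFun h1 0) 1
  simp at h2

lemma P10_ne : P10 F ≠ 0 := by
  intro h
  have h1 := congrArg (rep !![1, 0; 0, 0] !![1, 1; 0, 0]) h
  simp only [P10, R1, C0, tc, rep_comm0, rep_comm1, rep_ta] at h1
  have h2 := congrFun (congrFun h1 0) 1
  simp at h2

lemma P00_ne_zero : P00 F ≠ 0 := by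
  intro h
  have h1 := congrArg (rep !![1, 0; 0, 0] !![0, 1; 0, 0]) h
  simp only [P00, R0, C0, tc, rep_comm0, rep_comm1, rep_ta] at h1
  have h2 := congrFun (congrFun h1 0) 1
  simp at h2

/-! ### irreducibility -/

lemma mem_of_smul {U : Submodule F (TensorAlgebra F (F × F))} {t : F} (ht : t ≠ 0)
    {x : TensorAlgebra F (F × F)} (h : t • x ∈ U) : x ∈ U :=
  (Submodule.smul_mem_iff _ ht).1 h

lemma span_pair_le {U : Submodule F (TensorAlgebra F (F × F))} {p q : TensorAlgebra F (F × F)}
    (hp : p ∈ U) (hq : q ∈ U) : Submodule.span F {p, q} ≤ U := by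
  rw [Submodule.span_le]
  rintro x (rfl | rfl)
  · exact hp
  · exact hq

lemma pair {p q : TensorAlgebra F (F × F)} {U : Submodule F (TensorAlgebra F (F × F))}
    (hU : U ≤ Submodule.span F {p, q}) (hs : Stable (Mon F) U) (hne : U ≠ ⊥)
    (s t : F) (h : s * t ≠ 0) (l m : F) (hlm : l ≠ m) (hp : act (dg s t h) p = l • p)
    (hq : act (dg s t h) q = m • q) (h1 : act (sw F) p = q) (h2 : act (sw F) q = p) :
    Submodule.span F {p, q} ≤ U := by
  obtain ⟨u, hu, hu0⟩ := (Submodule.ne_bot_iff _).1 hne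
  obtain ⟨x, y, rfl⟩ := Submodule.mem_span_pair.1 (hU hu)
  have hd := hs _ (dg_mem s t h) _ hu
  rw [map_add, map_smul, map_smul, hp, hq] at hd
  by_cases hx : x = 0
  · have hy : y ≠ 0 := by
      rintro rfl
      apply hu0
      rw [hx, zero_smul, zero_smul, add_zero]
    have hqU : q ∈ U := by
      rw [hx, zero_smul, zero_add] at hu
      exact mem_of_smul hy hu
    have hpU : p ∈ U := by
      rw [← h2]; exact hs _ sw_mem _ hqU
    exact span_pair_le hpU hqU
  · have hpU : p ∈ U := by
      have h3 := U.sub_mem hd (U.smul_mem m hu)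
      have h4 : x • l • p + y • m • q - m • (x • p + y • q) = (x * (l - m)) • p := by module
      rw [h4] at h3
      exact mem_of_smul (mul_ne_zero hx (sub_ne_zero.2 hlm)) h3
    have hqU : q ∈ U := by
      rw [← h1]; exact hs _ sw_mem _ hpU
    exact span_pair_le hpU hqU

section omega

variable {ω : F} (hω : ω ^ 2 + ω + 1 = 0)

include hω

lemma om_ne_zero : ω ≠ 0 := by
  rintro rfl; simp at hω

lemma om_ne_one : ω ≠ 1 := by
  rintro rfl
  have h2 : (2 : F) = 0 := CharTwo.two_eq_zero
  have : (1 : F) = 0 := by linear_combination hω - h2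
  exact one_ne_zero this

lemma om_cube : ω ^ 3 = 1 := by linear_combination (ω - 1) * hω

lemma om_sq : ω ^ 2 = ω + 1 := by
  have h2 : (2 : F) = 0 := CharTwo.two_eq_zero
  linear_combination hω - (ω + 1) * h2

lemma om_ne_sq : ω ≠ ω ^ 2 := by
  rw [om_sq hω]
  intro h
  have : (1 : F) = 0 := by linear_combination -h
  exact one_ne_zero this

/-- a polynomial `x t² + y t` which vanishes at `1` and `ω` is zero -/
lemma exists_t {x y : F} (h : x ≠ 0 ∨ y ≠ 0) : ∃ t : F, x * t ^ 2 + y * t ≠ 0 := by
  by_contra hc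
  push Not at hc
  have h1 := hc 1
  have h2 := hc ω
  have hx : x = 0 := by
    have h3 : x * (ω * (ω - 1)) = 0 := by linear_combination h2 - ω * h1
    rcases mul_eq_zero.1 h3 with h4 | h4
    · exact h4
    · exact absurd h4 (mul_ne_zero (om_ne_zero hω) (sub_ne_zero.2 (om_ne_one hω)))
  have hy : y = 0 := by rw [hx] at h1; linear_combination h1
  rcases h with h | h
  · exact h hx
  · exact h hy

lemma star_one (U : Submodule F (TensorAlgebra F (F × F))) (hU : U ≤ lie F (F × F) 1)
    (h : Irr ⊤ U) : Irr (Mon F) U := by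
  refine ⟨h.1, fun g _ => h.2.1 g trivial, fun U' hU' hs => ?_⟩
  by_cases hb : U' = ⊥
  · exact Or.inl hb
  right
  refine le_antisymm hU' ((hU.trans lie_one_le).trans ?_)
  exact pair ((hU'.trans hU).trans lie_one_le) hs hb 1 ω (by simpa using om_ne_zero hω) 1 ω
    (om_ne_one hω).symm (dg_ta _ _ _) (dg_tb _ _ _) sw_ta sw_tb

lemma star_two (U : Submodule F (TensorAlgebra F (F × F))) (hU : U ≤ lie F (F × F) 2)
    (h : Irr ⊤ U) : Irr (Mon F) U := by
  refine ⟨h.1, fun g _ => h.2.1 g trivial, fun U' hU' hs => ?_⟩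
  by_cases hb : U' = ⊥
  · exact Or.inl hb
  right
  refine le_antisymm hU' ((hU.trans lie_two_le).trans ?_)
  obtain ⟨u, hu, hu0⟩ := (Submodule.ne_bot_iff _).1 hb
  obtain ⟨x, rfl⟩ := Submodule.mem_span_singleton.1 (lie_two_le (hU (hU' hu)))
  rw [Submodule.span_singleton_le_iff_mem]
  refine mem_of_smul (t := x) ?_ hu
  rintro rfl
  exact hu0 (zero_smul _ _)

lemma star_three (U : Submodule F (TensorAlgebra F (F × F))) (hU : U ≤ lie F (F × F) 3)
    (h : Irr ⊤ U) : Irr (Mon F) U := by
  refine ⟨h.1, fun g _ => h.2.1 g trivial, fun U' hU' hs => ?_⟩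
  by_cases hb : U' = ⊥
  · exact Or.inl hb
  right
  refine le_antisymm hU' ((hU.trans lie_three_le).trans ?_)
  refine pair ((hU'.trans hU).trans lie_three_le) hs hb 1 ω (by simpa using om_ne_zero hω)
    ω (ω ^ 2) (om_ne_sq hω) ?_ ?_ sw_C0 sw_C1
  · rw [dg_C0]; simp
  · rw [dg_C1]; simp

lemma star_four (U : Submodule F (TensorAlgebra F (F × F))) (hU : U ≤ lie F (F × F) 4)
    (h : Irr ⊤ U) : Irr (Mon F) U := by
  have hR2 : R2 F ∈ U := by
    obtain ⟨u, hu, hu0⟩ := (Submodule.ne_bot_iff _).1 h.1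
    obtain ⟨x0, x1, x2, rfl⟩ := Submodule.mem_span_triple.1 (lie_four_le (hU hu))
    by_cases hx : x0 = 0 ∧ x1 = 0
    · rw [hx.1, hx.2, zero_smul, zero_smul, zero_add, zero_add] at hu hu0
      refine mem_of_smul (t := x2) ?_ hu
      rintro rfl
      exact hu0 (zero_smul _ _)
    · obtain ⟨t, ht⟩ := exists_t hω (x := x0) (y := x1) (by
        by_contra hc
        push Not at hc
        exact hx hc)
      have h1 := U.sub_mem (h.2.1 (tau t) trivial _ hu) hu
      rw [map_add, map_add, map_smul, map_smul, map_smul, tau_R0, tau_R1, tau_R2] at h1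
      have h2 : x0 • (R0 F + t ^ 2 • R2 F) + x1 • (R1 F + t • R2 F) + x2 • R2 F -
          (x0 • R0 F + x1 • R1 F + x2 • R2 F) = (x0 * t ^ 2 + x1 * t) • R2 F := by module
      rw [h2] at h1
      exact mem_of_smul ht h1
  have hR0 : R0 F ∈ U := by
    rw [← sw_R2]; exact h.2.1 _ trivial _ hR2
  have hS : Submodule.span F (setS F) = U := by
    rcases h.2.2 _ (span_pair_le hR0 hR2) stable_S with h1 | h1
    · exfalso
      have h2 : R0 F = 0 := by
        have : R0 F ∈ Submodule.span F (setS F) := Submodule.subset_span (Or.inl rfl)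
        rw [setS] at this
        rw [h1] at this
        exact this
      apply P00_ne_zero (F := F)
      rw [P00, h2]
      simp [comm]
    · exact h1
  refine ⟨h.1, fun g _ => h.2.1 g trivial, fun U' hU' hs => ?_⟩
  by_cases hb : U' = ⊥
  · exact Or.inl hb
  right
  refine le_antisymm hU' ?_
  rw [← hS] at hU' ⊢
  refine pair hU' hs hb 1 ω (by simpa using om_ne_zero hω)
    ω 1 (om_ne_one hω) ?_ ?_ sw_R0 sw_R2
  · rw [dg_R0]; simp
  · rw [dg_R2, om_cube hω]; simp

theorem star_five : Star (Mon F) 5 := by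
  intro k hk hk' U hU h
  have : k = 1 ∨ k = 2 ∨ k = 3 ∨ k = 4 := by omega
  rcases this with rfl | rfl | rfl | rfl
  · exact star_one hω U hU h
  · exact star_two hω U hU h
  · exact star_three hω U hU h
  · exact star_four hω U hU h

theorem irr_U : Irr ⊤ (Submodule.span F (setU F)) := by
  refine ⟨?_, stable_U, fun U hU hs => ?_⟩
  · intro h
    have : P00 F ∈ Submodule.span F (setU F) := Submodule.subset_span (Or.inl rfl)
    rw [h] at this
    exact P00_ne_zero this
  by_cases hb : U = ⊥
  · exact Or.inl hb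
  right
  refine le_antisymm hU ?_
  have form : ∀ u ∈ U, ∃ x0 x1 x2 x3 : F,
      u = x0 • P00 F + x1 • P01 F + x2 • P20 F + x3 • P21 F := by
    intro u hu
    have h1 := hU hu
    rw [setU, Submodule.mem_span_insert] at h1
    obtain ⟨x0, z, hz, rfl⟩ := h1
    obtain ⟨x1, x2, x3, rfl⟩ := Submodule.mem_span_triple.1 hz
    exact ⟨x0, x1, x2, x3, by abel⟩
  have h2 : (2 : F) = 0 := CharTwo.two_eq_zero
  have h21 : P21 F ∈ U := by
    -- the norm of the transvections
    have key : ∀ x0 x1 x2 x3 : F, x0 ≠ 0 →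
        x0 • P00 F + x1 • P01 F + x2 • P20 F + x3 • P21 F ∈ U → P21 F ∈ U := by
      intro x0 x1 x2 x3 hx hu
      have t1 := hs (tau 1) trivial _ hu
      have t2 := hs (tau ω) trivial _ hu
      have t3 := hs (tau (ω ^ 2)) trivial _ hu
      have t4 := U.add_mem (U.add_mem (U.add_mem hu t1) t2) t3
      simp only [map_add, map_smul, tau_P00, tau_P01, tau_P20, tau_P21] at t4
      refine mem_of_smul hx ?_
      convert t4 using 1
      have c3 := om_cube hω
      match_scalars
      · linear_combination -x0 * c3 - x0 * (ω ^ 3 + 1) * c3 - x0 * h2 -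
          x1 * (1 - ω + ω ^ 2) * hω - x2 * hω - 2 * x3 * h2
      · linear_combination (-2 * x0) * h2
      · linear_combination (-2 * x1) * h2 - x0 * hω
      · linear_combination (-2 * x2) * h2 - x0 * (1 - ω + ω ^ 2) * hω
    obtain ⟨u, hu, hu0⟩ := (Submodule.ne_bot_iff _).1 hb
    obtain ⟨x0, x1, x2, x3, rfl⟩ := form u hu
    by_cases hx0 : x0 = 0
    · by_cases hx3 : x3 = 0
      · obtain ⟨t, ht⟩ := exists_t hω (x := x1) (y := x2) (by
          by_contra hc
          push Not at hc
          apply hu0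
          rw [hx0, hx3, hc.1, hc.2]
          simp)
        have h1 := U.sub_mem (hs (tau t) trivial _ hu) hu
        rw [hx0, hx3] at h1
        simp only [map_add, map_smul, tau_P01, tau_P20, zero_smul, zero_add, add_zero] at h1
        have h3 : x1 • (P01 F + t ^ 2 • P21 F) + x2 • (P20 F + t • P21 F) -
            (x1 • P01 F + x2 • P20 F) = (x1 * t ^ 2 + x2 * t) • P21 F := by module
        rw [h3] at h1
        exact mem_of_smul ht h1
      · have h1 := hs (sw F) trivial _ hu
        simp only [map_add, map_smul, sw_P00, sw_P01, sw_P20, sw_P21] at h1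
        refine key x3 x2 x1 x0 hx3 ?_
        convert h1 using 1
        abel
    · exact key x0 x1 x2 x3 hx0 hu
  have h00 : P00 F ∈ U := by
    rw [← sw_P21]; exact hs _ trivial _ h21
  have hlin : ∀ t : F, t • P01 F + t ^ 2 • P20 F ∈ U := by
    intro t
    have h1 := U.sub_mem (U.sub_mem (hs (tau t) trivial _ h00) h00) (U.smul_mem (t ^ 3) h21)
    rw [tau_P00] at h1
    convert h1 using 1
    abel
  have h20 : P20 F ∈ U := by
    have h1 := U.sub_mem (hlin ω) (U.smul_mem ω (hlin 1))
    have h3 : ω • P01 F + ω ^ 2 • P20 F - ω • ((1 : F) • P01 F + (1 : F) ^ 2 • P20 F) =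
        (ω * (ω - 1)) • P20 F := by module
    rw [h3] at h1
    exact mem_of_smul (mul_ne_zero (om_ne_zero hω) (sub_ne_zero.2 (om_ne_one hω))) h1
  have h01 : P01 F ∈ U := by
    rw [← sw_P20]; exact hs _ trivial _ h20
  rw [setU, Submodule.span_le]
  rintro x (rfl | rfl | rfl | rfl)
  · exact h00
  · exact h01
  · exact h20
  · exact h21

lemma dg_mem_A {x : TensorAlgebra F (F × F)} (hx : x ∈ Submodule.span F (setA F)) :
    act (dg 1 ω (by simpa using om_ne_zero hω)) x = ω • x := by
  obtain ⟨y, z, rfl⟩ := Submodule.mem_span_pair.1 hx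
  rw [map_add, map_smul, map_smul, dg_P00, dg_P21]
  have c3 := om_cube hω
  match_scalars
  · ring
  · linear_combination z * ω * c3

lemma stable_A : Stable (Mon F) (Submodule.span F (setA F)) := by
  have h0 : P00 F ∈ Submodule.span F (setA F) := Submodule.subset_span (Or.inl rfl)
  have h1 : P21 F ∈ Submodule.span F (setA F) := Submodule.subset_span (Or.inr rfl)
  apply stable_span
  intro g hg x hx
  obtain ⟨s, t, h, rfl | rfl⟩ := mon_cases hg
  · rcases hx with rfl | rfl
    · rw [dg_P00]; exact Submodule.smul_mem _ _ h0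
    · rw [dg_P21]; exact Submodule.smul_mem _ _ h1
  · rcases hx with rfl | rfl
    · rw [act_mul, dg_P00, map_smul, sw_P00]; exact Submodule.smul_mem _ _ h1
    · rw [act_mul, dg_P21, map_smul, sw_P21]; exact Submodule.smul_mem _ _ h0

lemma stable_B : Stable (Mon F) (Submodule.span F (setB F)) := by
  have h0 : P10 F ∈ Submodule.span F (setB F) := Submodule.subset_span (Or.inl rfl)
  have h1 : P11 F ∈ Submodule.span F (setB F) := Submodule.subset_span (Or.inr rfl)
  apply stable_span
  intro g hg x hx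
  obtain ⟨s, t, h, rfl | rfl⟩ := mon_cases hg
  · rcases hx with rfl | rfl
    · rw [dg_P10]; exact Submodule.smul_mem _ _ h0
    · rw [dg_P11]; exact Submodule.smul_mem _ _ h1
  · rcases hx with rfl | rfl
    · rw [act_mul, dg_P10, map_smul, sw_P10]; exact Submodule.smul_mem _ _ h1
    · rw [act_mul, dg_P11, map_smul, sw_P11]; exact Submodule.smul_mem _ _ h0

theorem not_star_six : ¬ Star (Mon F) 6 := by
  intro h
  have hU : Submodule.span F (setU F) ≤ lie F (F × F) 5 := by
    rw [Submodule.span_le]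
    rintro x (rfl | rfl | rfl | rfl)
    · exact P00_mem
    · exact P01_mem
    · exact P20_mem
    · exact P21_mem
  have h1 := h 5 (by norm_num) (by norm_num) _ hU (irr_U hω)
  have hA : Submodule.span F (setA F) ≤ Submodule.span F (setU F) :=
    span_pair_le (Submodule.subset_span (Or.inl rfl))
      (Submodule.subset_span (Or.inr (Or.inr (Or.inr rfl))))
  rcases h1.2.2 _ hA (stable_A hω) with h2 | h2
  · have : P00 F ∈ Submodule.span F (setA F) := Submodule.subset_span (Or.inl rfl)
    rw [h2] at this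
    exact P00_ne_zero this
  · have h3 : P01 F ∈ Submodule.span F (setA F) := by
      rw [h2]; exact Submodule.subset_span (Or.inr (Or.inl rfl))
    have h4 := dg_mem_A hω h3
    rw [dg_P01] at h4
    have h5 : (ω ^ 2 - ω) • P01 F = 0 := by
      rw [sub_smul, sub_eq_zero]
      rw [← h4]; simp
    rcases smul_eq_zero.1 h5 with h6 | h6
    · exact om_ne_sq hω (sub_eq_zero.1 h6).symm
    · exact P01_ne h6

theorem not_uniserial : ¬ Uniserial (Mon F) (lie F (F × F) 5) := by
  intro h
  rcases h _ _ (span_pair_le P00_mem P21_mem) (span_pair_le P10_mem P11_mem)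
    (stable_A hω) (stable_B hω) with h1 | h1
  · have h2 : P00 F ∈ Submodule.span F (setB F) := h1 (Submodule.subset_span (Or.inl rfl))
    obtain ⟨y, z, hyz⟩ := Submodule.mem_span_pair.1 h2
    have c3 := om_cube hω
    have h3 := congrArg (act (dg 1 ω (by simpa using om_ne_zero hω))) hyz
    have h4 := congrArg (act (dg 1 ω (by simpa using om_ne_zero hω))) h3
    simp only [map_add, map_smul, dg_P00, dg_P10, dg_P11, one_pow, one_mul, c3, one_smul]
      at h3 h4
    have h5 : ((ω - 1) * (ω - ω ^ 2)) • P00 F = 0 := by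
      have e1 : (ω ^ 2) • P00 F - (1 + ω ^ 2) • (ω • P00 F) + ω ^ 2 • P00 F =
          ((ω - 1) * (ω - ω ^ 2)) • P00 F := by module
      rw [← e1]
      linear_combination (norm := module) (-1 : F) • h4 + (1 + ω ^ 2) • h3 - ω ^ 2 • hyz
    rcases smul_eq_zero.1 h5 with h6 | h6
    · exact absurd h6 (mul_ne_zero (sub_ne_zero.2 (om_ne_one hω)) (sub_ne_zero.2 (om_ne_sq hω)))
    · exact P00_ne_zero h6
  · have h2 : P10 F ∈ Submodule.span F (setA F) := h1 (Submodule.subset_span (Or.inl rfl))
    have h4 := dg_mem_A hω h2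
    rw [dg_P10] at h4
    have h5 : (ω ^ 2 - ω) • P10 F = 0 := by
      rw [sub_smul, sub_eq_zero]
      rw [← h4]; simp
    rcases smul_eq_zero.1 h5 with h6 | h6
    · exact om_ne_sq hω (sub_eq_zero.1 h6).symm
    · exact P10_ne h6

/-- the projection to the eigenspace -/
def proj (ω : F) (h : (1 : F) * ω ≠ 0) : TensorAlgebra F (F × F) →ₗ[F] TensorAlgebra F (F × F) :=
  LinearMap.id + ω ^ 2 • (act (dg 1 ω h)).toLinearMap +
    ω • ((act (dg 1 ω h)).toLinearMap ∘ₗ (act (dg 1 ω h)).toLinearMap)

omit [CharP F 2] hω in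
lemma proj_apply (h : (1 : F) * ω ≠ 0) (x : TensorAlgebra F (F × F)) :
    proj ω h x = x + ω ^ 2 • act (dg 1 ω h) x + ω • act (dg 1 ω h) (act (dg 1 ω h) x) := rfl

lemma proj_eigen (h : (1 : F) * ω ≠ 0) (x : TensorAlgebra F (F × F)) (l : F)
    (hx : act (dg 1 ω h) x = l • x) : proj ω h x = (1 + ω ^ 2 * l + ω * l ^ 2) • x := by
  rw [proj_apply, hx, map_smul, hx]
  module

/-- the projection maps the fifth Lie power to `A` -/
lemma proj_mem (h : (1 : F) * ω ≠ 0) {x : TensorAlgebra F (F × F)} (hx : x ∈ lie F (F × F) 5) :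
    proj ω h x ∈ Submodule.span F (setA F) := by
  have h2 : (2 : F) = 0 := CharTwo.two_eq_zero
  have c3 := om_cube hω
  have h0 : P00 F ∈ Submodule.span F (setA F) := Submodule.subset_span (Or.inl rfl)
  have h1 : P21 F ∈ Submodule.span F (setA F) := Submodule.subset_span (Or.inr rfl)
  have hle : Submodule.span F {P00 F, P01 F, P10 F, P11 F, P20 F, P21 F} ≤
      (Submodule.span F (setA F)).comap (proj ω h) := by
    rw [Submodule.span_le]
    have z2 : (1 + ω ^ 2 * (1 ^ 3 * ω ^ 2) + ω * (1 ^ 3 * ω ^ 2) ^ 2 : F) = 0 := by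
      linear_combination (ω + ω ^ 2) * c3 + hω
    have z3 : (1 + ω ^ 2 * (1 ^ 2 * ω ^ 3) + ω * (1 ^ 2 * ω ^ 3) ^ 2 : F) = 0 := by
      linear_combination (ω ^ 2 + ω * (ω ^ 3 + 1)) * c3 + hω
    rintro x (rfl | rfl | rfl | rfl | rfl | rfl)
    · rw [SetLike.mem_coe, Submodule.mem_comap]
      rw [proj_eigen hω h _ _ (dg_P00 _ _ _)]; exact Submodule.smul_mem _ _ h0
    · rw [SetLike.mem_coe, Submodule.mem_comap]
      rw [proj_eigen hω h _ _ (dg_P01 _ _ _), z2, zero_smul]; exact Submodule.zero_mem _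
    · rw [SetLike.mem_coe, Submodule.mem_comap]
      rw [proj_eigen hω h _ _ (dg_P10 _ _ _), z2, zero_smul]; exact Submodule.zero_mem _
    · rw [SetLike.mem_coe, Submodule.mem_comap]
      rw [proj_eigen hω h _ _ (dg_P11 _ _ _), z3, zero_smul]; exact Submodule.zero_mem _
    · rw [SetLike.mem_coe, Submodule.mem_comap]
      rw [proj_eigen hω h _ _ (dg_P20 _ _ _), z3, zero_smul]; exact Submodule.zero_mem _
    · rw [SetLike.mem_coe, Submodule.mem_comap]
      rw [proj_eigen hω h _ _ (dg_P21 _ _ _)]; exact Submodule.smul_mem _ _ h1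
  exact hle (lie_five_le hx)

/-- the projection is the identity on `A` -/
lemma proj_A (h : (1 : F) * ω ≠ 0) {x : TensorAlgebra F (F × F)}
    (hx : x ∈ Submodule.span F (setA F)) : proj ω h x = x := by
  rw [proj_eigen hω h x ω (dg_mem_A hω hx)]
  have h2 : (2 : F) = 0 := CharTwo.two_eq_zero
  have c3 := om_cube hω
  have : (1 + ω ^ 2 * ω + ω * ω ^ 2 : F) = 1 := by linear_combination 2 * c3 + h2
  rw [this, one_smul]

theorem not_cr (h3 : ∀ s : F, s ≠ 0 → s ^ 3 = 1) :
    ¬ CompletelyReducible (Mon F) (lie F (F × F) 5) := by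
  rintro ⟨C, hC, -, hsup⟩
  have h : (1 : F) * ω ≠ 0 := by simpa using om_ne_zero hω
  have hsw : ∀ x : TensorAlgebra F (F × F), act (sw F) (act (sw F) x) = x := by
    intro x
    rw [← act_mul]
    have : sw F * sw F = 1 := by
      apply ext2 <;> simp [sw_apply]
    rw [this]
    have h1 : act (1 : (F × F) ≃ₗ[F] (F × F)) = AlgHom.id F _ := by
      apply TensorAlgebra.hom_ext
      apply LinearMap.ext
      intro v
      simp [act_ι]
    rw [h1]; rfl
  -- the elements whose projection is fixed by the swap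
  let K : Submodule F (TensorAlgebra F (F × F)) :=
    LinearMap.ker (((act (sw F)).toLinearMap - LinearMap.id) ∘ₗ proj ω h)
  have hK : ∀ x, x ∈ K ↔ act (sw F) (proj ω h x) = proj ω h x := by
    intro x
    rw [LinearMap.mem_ker, LinearMap.comp_apply, LinearMap.sub_apply, sub_eq_zero]
    rfl
  let Fx : Submodule F (TensorAlgebra F (F × F)) :=
    LinearMap.ker ((act (sw F)).toLinearMap - LinearMap.id)
  have hFx : ∀ x, x ∈ Fx ↔ act (sw F) x = x := by
    intro x
    rw [LinearMap.mem_ker, LinearMap.sub_apply, sub_eq_zero]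
    rfl
  have hscal : ∀ g ∈ Mon F, ∃ l : F, ∀ x ∈ Submodule.span F (setA F),
      act g x = l • x ∨ act g x = l • act (sw F) x := by
    intro g hg
    obtain ⟨s, t, hst, hg⟩ := mon_cases hg
    have hs : s ^ 3 = 1 := h3 s (left_ne_zero_of_mul hst)
    have ht : t ^ 3 = 1 := h3 t (right_ne_zero_of_mul hst)
    have key : ∀ x ∈ Submodule.span F (setA F), act (dg s t hst) x = (s * t) • x := by
      intro x hx
      obtain ⟨y, z, rfl⟩ := Submodule.mem_span_pair.1 hx
      rw [map_add, map_smul, map_smul, dg_P00, dg_P21]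
      match_scalars
      · linear_combination y * s * t * hs
      · linear_combination z * s * t * ht
    refine ⟨s * t, fun x hx => ?_⟩
    rcases hg with rfl | rfl
    · exact Or.inl (key x hx)
    · right
      rw [act_mul, key x hx, map_smul]
  have hirr : ∀ U ∈ C, U ≤ K := by
    intro U hU
    have hUi := hC U hU
    have hUl : U ≤ lie F (F × F) 5 := hsup ▸ le_sSup hU
    have hproj : ∀ u ∈ U, proj ω h u ∈ U := by
      intro u hu
      rw [proj_apply]
      have h1 := hUi.2.1 _ (dg_mem 1 ω h) _ hu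
      exact U.add_mem (U.add_mem hu (U.smul_mem _ h1))
        (U.smul_mem _ (hUi.2.1 _ (dg_mem 1 ω h) _ h1))
    have hst : Stable (Mon F) (U ⊓ Submodule.span F (setA F)) := fun g hg x hx =>
      ⟨hUi.2.1 g hg x hx.1, stable_A hω g hg x hx.2⟩
    rcases hUi.2.2 _ inf_le_left hst with h1 | h1
    · intro u hu
      rw [hK]
      have h2 : proj ω h u ∈ U ⊓ Submodule.span F (setA F) :=
        ⟨hproj u hu, proj_mem hω h (hUl hu)⟩
      rw [h1, Submodule.mem_bot] at h2
      rw [h2, map_zero]
    · have hUA : U ≤ Submodule.span F (setA F) := inf_eq_left.1 h1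
      have hst2 : Stable (Mon F) (U ⊓ Fx) := by
        intro g hg x hx
        refine ⟨hUi.2.1 g hg x hx.1, ?_⟩
        have hxf : act (sw F) x = x := (hFx x).1 hx.2
        rw [SetLike.mem_coe, hFx]
        obtain ⟨l, hl⟩ := hscal g hg
        rcases hl x (hUA hx.1) with h4 | h4
        · rw [h4, map_smul, hxf]
        · rw [h4, hxf, map_smul, hxf]
      rcases hUi.2.2 _ inf_le_left hst2 with h4 | h4
      · exfalso
        obtain ⟨u, hu, hu0⟩ := (Submodule.ne_bot_iff _).1 hUi.1
        have h5 : u + act (sw F) u ∈ U ⊓ Fx := by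
          refine ⟨U.add_mem hu (hUi.2.1 _ sw_mem _ hu), ?_⟩
          rw [SetLike.mem_coe, hFx, map_add, hsw, add_comm]
        rw [h4, Submodule.mem_bot] at h5
        have h6 : act (sw F) u = u := by
          rw [← neg_eq u]
          rw [neg_eq u]
          have := eq_neg_of_add_eq_zero_right h5
          rw [this, neg_eq]
        have h7 : u ∈ U ⊓ Fx := ⟨hu, (hFx u).2 h6⟩
        rw [h4, Submodule.mem_bot] at h7
        exact hu0 h7
      · intro u hu
        rw [hK, proj_A hω h (hUA hu)]
        have : u ∈ U ⊓ Fx := by rw [h4]; exact hu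
        exact (hFx u).1 this.2
  have hle : lie F (F × F) 5 ≤ K := by
    rw [← hsup]
    exact sSup_le hirr
  have h4 := (hK _).1 (hle P00_mem)
  rw [proj_A hω h (Submodule.subset_span (Or.inl rfl)), sw_P00] at h4
  exact P00_ne h4.symm

end omega

end char2

end Lie

/-- For some finite field `F`, some finite-dimensional `F`-space `V`, some maximal subgroup `H` of
`GL(V)` and `n = 5`, condition `(∗ₙ)` holds, `(∗ₙ₊₁)` fails, and the restriction of the Lie power
`L^n V` to `H` is neither completely reducible nor uniserial. -/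
theorem result : ∃ (F V : Type) (_ : Field F) (_ : Finite F) (_ : AddCommGroup V)
    (_ : Module F V) (_ : FiniteDimensional F V) (H : Subgroup (V ≃ₗ[F] V)) (n : ℕ),
    IsCoatom H ∧ Star H n ∧ ¬ Star H (n + 1) ∧ ¬ CompletelyReducible H (lie F V n) ∧
      ¬ Uniserial H (lie F V n) := by
  classical
  let F := GaloisField 2 2
  let : Fintype F := Fintype.ofFinite F
  have hcard : Fintype.card F = 4 := by
    rw [← Nat.card_eq_fintype_card, GaloisField.card 2 2 (by norm_num)]; norm_num
  have h3 : ∀ s : F, s ≠ 0 → s ^ 3 = 1 := by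
    intro s hs
    have := FiniteField.pow_card_sub_one_eq_one s hs
    rwa [hcard] at this
  obtain ⟨ω, hω⟩ : ∃ ω : F, ω ^ 2 + ω + 1 = 0 := by
    obtain ⟨ω, h⟩ : ∃ ω : F, ω ∉ ({0, 1} : Finset F) := by
      by_contra hc
      push Not at hc
      have h1 : (Finset.univ : Finset F) ⊆ {0, 1} := fun x _ => hc x
      have h2 := Finset.card_le_card h1
      rw [Finset.card_univ, hcard] at h2
      have h4 := Finset.card_le_two (a := (0 : F)) (b := 1)
      omega
    simp only [Finset.mem_insert, Finset.mem_singleton, not_or] at h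
    refine ⟨ω, ?_⟩
    have h5 : (ω - 1) * (ω ^ 2 + ω + 1) = 0 := by linear_combination h3 ω h.1
    rcases mul_eq_zero.1 h5 with h6 | h6
    · exact absurd (sub_eq_zero.1 h6) h.2
    · exact h6
  exact ⟨F, F × F, inferInstance, inferInstance, inferInstance, inferInstance, inferInstance,
    Mon F, 5, mon_maximal, star_five hω, not_star_six hω, not_cr hω h3, not_uniserial hω⟩

end Pool.Agent.Results.MP_a1df92_al.MonomialFour
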